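import Mathlib
import Pool.Agent.H538Z.Defs
import Pool.Agent.H538Z.CharEx

set_option autoImplicit false

namespace Pool.Agent.Results.MP_9740d9_al.ACharDependence

open Pool.Agent.H538Z

/-- A graph whose edge ideal has regularity `5` over every field, while the regularity of the
`q`-th power is `2 q + 3` in characteristic `2` and `2 q + 2` in all other characteristics. -/
theorem result :
    ∃ (n : ℕ) (G : SimpleGraph (Fin n)), (∃ a b, G.Adj a b) ∧
      (∀ (K : Type) [Field K], reg (edgeIdeal K G) = 5) ∧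
      (∀ (K : Type) [Field K], (2 : K) = 0 →
        ∀ q : ℕ, 1 ≤ q → reg (edgeIdeal K G ^ q) = 2 * q + 3) ∧
      (∀ (K : Type) [Field K], (2 : K) ≠ 0 →
        ∀ q : ℕ, 2 ≤ q → reg (edgeIdeal K G ^ q) = 2 * q + 2) := by
  refine ⟨23, CharEx.G, CharEx.hG, fun K _ => ?_, fun K _ h q hq => ?_, fun K _ h q hq => ?_⟩
  · rw [reg_one CharEx.hG, CharEx.L1_eq]
  · haveI : CharP K 2 := CharTwo.of_one_ne_zero_of_two_eq_zero one_ne_zero h
    rw [reg_pow CharEx.hG hq, CharEx.L1_eq, CharEx.L2_eq_three]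
    omega
  · rw [reg_pow CharEx.hG (by omega), CharEx.L1_eq, CharEx.L2_eq_two K h]
    omega

end Pool.Agent.Results.MP_9740d9_al.ACharDependence
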